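import Pool.Agent.helper58.FI4E.Spec

set_option autoImplicit false

namespace Pool.Agent.FI4E

open Pool.Agent.helper58.DC Pool.Agent.DI Pool.Agent.GR Pool.Agent.OB Pool.Agent.DR Pool.Agent.FI Pool.Agent.FI3 Pool.Agent.FI4 Pool.Agent.FI4I

theorem RAT_am_al {G : Type} [Group G] (H : Subgroup G) (α : MulAut G) (hα : am α H = H) (h : G) (hh : h ∈ H) :
    am (al α h) H = H := by
  ext x
  rw [mem_am, al_inv_apply, ← mem_am, hα]
  constructor
  · intro hx
    have h1 := H.mul_mem (H.mul_mem hh hx) (H.inv_mem hh)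
    have h2 : h * (h⁻¹ * x * h) * h⁻¹ = x := by group
    rwa [h2] at h1
  · intro hx
    exact H.mul_mem (H.mul_mem (H.inv_mem hh) hx) hh

theorem RAT_central {G : Type} [Group G] (H : Subgroup G) (α : MulAut G) (hα : am α H = H) (h : G) (hh : h ∈ H)
    (y : G) (hy : ∀ k ∈ H, k * y = y * k) : al α h y = α y := by
  have h0 : α⁻¹ h ∈ H := by
    rw [← mem_am, hα]
    exact hh
  have h1 : h * α y = α y * h := by
    have h2 := congrArg α (hy _ h0)
    rw [map_mul, map_mul, MulAut.apply_inv_self] at h2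
    exact h2
  rw [al_apply, h1, mul_assoc, mul_inv_cancel, mul_one]

theorem RAT_Cz_eq {G : Type} [Group G] (H : Subgroup G) (y : G) (hy : ∀ k ∈ H, k * y = y * k) : Cz H y = H := by
  unfold Cz
  apply inf_eq_left.mpr
  intro k hk
  rw [Subgroup.mem_centralizer_singleton_iff]
  exact hy k hk

theorem RAT_Cz_lt {G : Type} [Group G] [Finite G] (H : Subgroup G) (y : G) (hy : ¬ ∀ k ∈ H, k * y = y * k) :
    Nat.card (Cz H y) < Nat.card H := by
  by_contra hc
  apply hy
  have h1 : Cz H y = H := Subgroup.eq_of_le_of_card_ge inf_le_left (not_lt.mp hc)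
  intro k hk
  rw [← h1] at hk
  have h2 : k ∈ Subgroup.centralizer {y} := hk.2
  rwa [Subgroup.mem_centralizer_singleton_iff] at h2

theorem RAT (hSCG : SCG_stmt) (hTSI : TSI_stmt) (hBAA : BAA_stmt) : RAT_stmt := by
  intro p M hS G _ _ χ H
  have key : ∀ n : ℕ, ∀ H : Subgroup G, Nat.card H = n → ∀ α : MulAut G, am α H = H → ∃ q : ℚ, tL p M χ H α = q := by
    intro n
    induction n using Nat.strong_induction_on with
    | _ n ih =>
      intro H hn α hα
      have hfin : ∀ s : Set G, s.Finite := fun s => Set.toFinite s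
      have hscg := hSCG p M hS G χ H α hα
      obtain ⟨t, ht⟩ : ∃ t : ℂ, t = tL p M χ H α := ⟨_, rfl⟩
      obtain ⟨C, hC⟩ : ∃ C : Set G, C = {y : G | ∀ k ∈ H, k * y = y * k} := ⟨_, rfl⟩
      obtain ⟨Z, hZ⟩ : ∃ Z : Set G, Z = {y : G | y ∈ H ∧ PEl p y ∧ α y = y} ∩ C := ⟨_, rfl⟩
      have hZ1 : (1 : G) ∈ Z := by
        rw [hZ, hC]
        refine ⟨⟨H.one_mem, ⟨0, one_pow _⟩, map_one α⟩, ?_⟩
        intro k _
        rw [mul_one, one_mul]
      have hZc : Z.ncard ≠ 0 := Set.ncard_ne_zero_of_mem hZ1 (hfin Z)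
      have hone : ∀ h ∈ (H : Set G), ∃ r : ℚ,
          (∑ᶠ y ∈ {y : G | y ∈ H ∧ PEl p y ∧ al α h y = y}, tL p M χ (Cz H y) (al α h)) = (Z.ncard : ℂ) * t + r := by
        intro h hh
        have hh' : h ∈ H := hh
        have hsplit := finsum_mem_inter_add_sdiff (f := fun y => tL p M χ (Cz H y) (al α h)) (s := {y : G | y ∈ H ∧ PEl p y ∧ al α h y = y}) C (hfin _)
        have hinter : {y : G | y ∈ H ∧ PEl p y ∧ al α h y = y} ∩ C = Z := by
          rw [hZ]
          ext y
          simp only [Set.mem_inter_iff, Set.mem_setOf_eq, and_congr_left_iff]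
          intro hy
          rw [hC] at hy
          rw [RAT_central H α hα h hh' y hy]
        have h1 : (∑ᶠ y ∈ Z, tL p M χ (Cz H y) (al α h)) = (Z.ncard : ℂ) * t := by
          have h2 : ∀ y ∈ Z, tL p M χ (Cz H y) (al α h) = t := by
            intro y hy
            rw [hZ, hC] at hy
            rw [RAT_Cz_eq H y hy.2, ht]
            exact (hTSI p G H α hα h hh').2 (Blk M χ H) (fun ψ hψ => hψ.1)
          rw [finsum_mem_congr rfl h2, finsum_mem_eq_finite_toFinset_sum _ (hfin Z), Finset.sum_const, nsmul_eq_mul,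
            Set.ncard_eq_toFinset_card Z (hfin Z)]
        have h3 : ∃ r : ℚ, (∑ᶠ y ∈ {y : G | y ∈ H ∧ PEl p y ∧ al α h y = y} \ C, tL p M χ (Cz H y) (al α h)) = r := by
          apply finsum_mem_induction (fun x : ℂ => ∃ r : ℚ, x = r)
          · exact ⟨0, by norm_num⟩
          · rintro x y ⟨a, rfl⟩ ⟨b, rfl⟩
            exact ⟨a + b, by push_cast; rfl⟩
          · intro y hy
            have hyC : ¬ ∀ k ∈ H, k * y = y * k := by
              intro hc
              apply hy.2
              rw [hC]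
              exact hc
            apply ih _ (hn ▸ RAT_Cz_lt H y hyC) (Cz H y) rfl
            have h4 := (hBAA G M p (al α h) H H H (fun _ => 0) (fun _ => 0) (fun _ => 0)).2.1 y
            rw [h4, RAT_am_al H α hα h hh', hy.1.2.2]
        obtain ⟨r, hr⟩ := h3
        refine ⟨r, ?_⟩
        rw [← hsplit, hinter, h1, hr]
      have hsum : ∃ r : ℚ, (∑ᶠ h ∈ (H : Set G), ((∑ᶠ y ∈ {y : G | y ∈ H ∧ PEl p y ∧ al α h y = y}, tL p M χ (Cz H y) (al α h)) - (Z.ncard : ℂ) * t)) = r := by
        apply finsum_mem_induction (fun x : ℂ => ∃ r : ℚ, x = r)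
        · exact ⟨0, by norm_num⟩
        · rintro x y ⟨a, rfl⟩ ⟨b, rfl⟩
          exact ⟨a + b, by push_cast; rfl⟩
        · intro h hh
          obtain ⟨r, hr⟩ := hone h hh
          exact ⟨r, by rw [hr]; ring⟩
      obtain ⟨r, hr⟩ := hsum
      rw [finsum_mem_sub_distrib _ _ (hfin _), ← hscg] at hr
      have hconst : (∑ᶠ h ∈ (H : Set G), (Z.ncard : ℂ) * t) = (Nat.card H : ℂ) * ((Z.ncard : ℂ) * t) := by
        rw [finsum_mem_eq_finite_toFinset_sum _ (hfin (H : Set G)), Finset.sum_const, nsmul_eq_mul,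
          ← Set.ncard_eq_toFinset_card (H : Set G) (hfin (H : Set G))]
        rfl
      have hleft : ∃ s : ℚ, (∑ᶠ h ∈ (H : Set G), (cnt M χ H (al α h) (RingEquiv.refl ℂ) : ℂ)) = s := by
        apply finsum_mem_induction (fun x : ℂ => ∃ r : ℚ, x = r)
        · exact ⟨0, by norm_num⟩
        · rintro x y ⟨a, rfl⟩ ⟨b, rfl⟩
          exact ⟨a + b, by push_cast; rfl⟩
        · intro h _
          exact ⟨(cnt M χ H (al α h) (RingEquiv.refl ℂ) : ℚ), by push_cast; rfl⟩
      obtain ⟨s, hs⟩ := hleft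
      rw [hs, hconst] at hr
      have hHc : (Nat.card H : ℂ) ≠ 0 := by
        exact_mod_cast Nat.card_pos.ne'
      have hZc' : (Z.ncard : ℂ) ≠ 0 := by
        exact_mod_cast hZc
      refine ⟨(s - r) / ((Nat.card H : ℚ) * (Z.ncard : ℚ)), ?_⟩
      rw [← ht]
      push_cast
      rw [eq_div_iff (mul_ne_zero hHc hZc')]
      rw [← hr]
      ring
  exact fun α hα => key _ H rfl α hα

end Pool.Agent.FI4E
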